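import Pool.Agent.N909.CX.Def

/-!
# CX/2 (helper189): the mass of the stopping words
-/

set_option autoImplicit false

namespace Pool.Agent.N189.CX

open Pool.Agent.N909.CM Pool.Agent.N909.CL Pool.Agent.N909.CX

/-- the tilted probability of a word -/
noncomputable def Q : List Bool → ℝ
  | [] => 1
  | true :: w => 3 / 4 * Q w
  | false :: w => 1 / 4 * Q w

lemma Q_nonneg : ∀ w, 0 ≤ Q w
  | [] => by simp [Q]
  | true :: w => by have := Q_nonneg w; rw [Q]; positivity
  | false :: w => by have := Q_nonneg w; rw [Q]; positivity

lemma Q_eq : ∀ w : List Bool,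
    Q w = (3 / 4 : ℝ) ^ (w.count true) * (1 / 4) ^ (w.length - w.count true)
  | [] => by simp [Q]
  | true :: w => by
    have h : (true :: w).length - (true :: w).count true = w.length - w.count true := by
      simp
    rw [Q, Q_eq w, h, List.count_cons_self, pow_succ]
    ring
  | false :: w => by
    have hc : (false :: w).count true = w.count true := by simp
    have h : (false :: w).length - w.count true = w.length - w.count true + 1 := by
      have := List.count_le_length (a := true) (l := w)
      rw [List.length_cons]
      omega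
    rw [Q, Q_eq w, hc, h, pow_succ]
    ring

lemma half_sl (w : List Bool) : (1 / 2 : ℝ) ^ w.length * sl w = Q w := by
  rw [Q_eq, sl]
  have h := List.count_le_length (a := true) (l := w)
  obtain ⟨r, hr⟩ := Nat.exists_eq_add_of_le h
  have e : w.length - w.count true = r := by omega
  rw [e, hr, div_pow, div_pow, div_pow, one_pow, one_pow]
  have h4 : (4 : ℝ) = 2 * 2 := by norm_num
  rw [h4, mul_pow, mul_pow, pow_add]
  field_simp

open Classical in
lemma sum_We_succ (k : ℕ) (p : List Bool → Prop) (f : List Bool → ℝ) :
    ∑ w ∈ (We (k + 1)).filter p, f w =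
      ∑ w ∈ (We k).filter (fun w => p (true :: w)), f (true :: w) +
        ∑ w ∈ (We k).filter (fun w => p (false :: w)), f (false :: w) := by
  rw [We, Finset.filter_union, Finset.sum_union]
  · rw [Finset.filter_image, Finset.filter_image, Finset.sum_image, Finset.sum_image]
    · intro a _ b _ h
      simpa using h
    · intro a _ b _ h
      simpa using h
  · rw [Finset.disjoint_left]
    intro w h1 h2
    rw [Finset.mem_filter, Finset.mem_image] at h1 h2
    obtain ⟨⟨a, -, rfl⟩, -⟩ := h1
    obtain ⟨⟨b, -, hb⟩, -⟩ := h2
    simp at hb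

open Classical in
lemma sum_Wd_succ (k : ℕ) (p : List Bool → Prop) (hp : ¬ p []) (f : List Bool → ℝ) :
    ∑ w ∈ (Wd (k + 1)).filter p, f w =
      ∑ w ∈ (Wd k).filter (fun w => p (true :: w)), f (true :: w) +
        ∑ w ∈ (Wd k).filter (fun w => p (false :: w)), f (false :: w) := by
  rw [Wd, Finset.filter_union, Finset.filter_singleton, if_neg hp, Finset.empty_union,
    Finset.filter_union, Finset.sum_union]
  · rw [Finset.filter_image, Finset.filter_image, Finset.sum_image, Finset.sum_image]
    · intro a _ b _ h
      simpa using h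
    · intro a _ b _ h
      simpa using h
  · rw [Finset.disjoint_left]
    intro w h1 h2
    rw [Finset.mem_filter, Finset.mem_image] at h1 h2
    obtain ⟨⟨a, -, rfl⟩, -⟩ := h1
    obtain ⟨⟨b, -, hb⟩, -⟩ := h2
    simp at hb

open Classical in
lemma sum_Q : ∀ k : ℕ, ∑ w ∈ We k, Q w = 1 := by
  intro k
  induction k with
  | zero => simp [We, Q]
  | succ k ih =>
    have h := sum_We_succ k (fun _ => True) Q
    simp only [Finset.filter_true] at h
    rw [h]
    simp only [Q, ← Finset.mul_sum, ih]
    norm_num

lemma nil_Wd (k : ℕ) : [] ∈ Wd k := by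
  cases k <;> simp [Wd]

lemma len_We : ∀ (k : ℕ) (w : List Bool), w ∈ We k → w.length = k := by
  intro k
  induction k with
  | zero => intro w hw; simpa [We] using hw
  | succ k ih =>
    intro w hw
    rw [We, Finset.mem_union, Finset.mem_image, Finset.mem_image] at hw
    rcases hw with ⟨a, ha, rfl⟩ | ⟨a, ha, rfl⟩ <;> simp [ih a ha]

/-- a prefix is in `A` -/
def PA (A : List Bool → Prop) (w : List Bool) : Prop := ∃ j ≤ w.length, A (w.take j)

/-- in `A` for the first time -/
def PB (A : List Bool → Prop) (v : List Bool) : Prop := A v ∧ ∀ j < v.length, ¬ A (v.take j)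

open Classical in
/-- the mass of the words with a prefix in `A` -/
lemma ext : ∀ (k : ℕ) (A : List Bool → Prop),
    ∑ w ∈ (We k).filter (fun w => PA A w), Q w ≤ ∑ v ∈ (Wd k).filter (fun v => PB A v), Q v := by
  intro k
  induction k with
  | zero =>
    intro A
    by_cases h : A []
    · simp [We, Wd, Finset.filter_singleton, h, PA, PB]
    · simp [We, Wd, Finset.filter_singleton, h, PA, PB]
  | succ k ih =>
    intro A
    by_cases h : A []
    · refine (Finset.sum_le_sum_of_subset_of_nonneg (Finset.filter_subset _ _)
        (fun w _ _ => Q_nonneg w)).trans ?_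
      rw [sum_Q]
      have h1 : ([] : List Bool) ∈ (Wd (k + 1)).filter (fun v => PB A v) := by
        rw [Finset.mem_filter]
        exact ⟨nil_Wd _, h, by simp⟩
      have h2 := Finset.single_le_sum (f := Q) (fun w _ => Q_nonneg w) h1
      simpa [Q] using h2
    · rw [sum_We_succ, sum_Wd_succ]
      · have e1 : ∀ (d : Bool) (w : List Bool),
            PA A (d :: w) ↔ PA (fun v => A (d :: v)) w := by
          intro d w
          constructor
          · rintro ⟨j, hj, hA⟩
            cases j with
            | zero => exact absurd (by simpa using hA) h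
            | succ j => exact ⟨j, by simpa using hj, by simpa using hA⟩
          · rintro ⟨j, hj, hA⟩
            exact ⟨j + 1, by simpa using hj, by simpa using hA⟩
        have e2 : ∀ (d : Bool) (v : List Bool),
            PB A (d :: v) ↔ PB (fun v => A (d :: v)) v := by
          intro d v
          constructor
          · rintro ⟨h1, h2⟩
            refine ⟨h1, fun j hj => ?_⟩
            have := h2 (j + 1) (by simpa using hj)
            simpa using this
          · rintro ⟨h1, h2⟩
            refine ⟨h1, fun j hj => ?_⟩
            cases j with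
            | zero => simpa using h
            | succ j =>
              have := h2 j (by simpa using hj)
              simpa using this
        have i1 := ih (fun v => A (true :: v))
        have i2 := ih (fun v => A (false :: v))
        simp only [e1, e2, Q, ← Finset.mul_sum]
        linarith
      · rintro ⟨h1, -⟩
        exact h h1

lemma val_append (v : List Bool) : ∀ (n : ℕ) (d : Bool), val n (v ++ [d]) = stp d (val n v) := by
  induction v with
  | nil => intro n d; rfl
  | cons e v ih =>
    intro n d
    rw [List.cons_append, val, val, ih]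

lemma num1 : 1 / 9 ≤ 749 / 1000 * Real.log 3 - Real.log 2 := by
  have h1 : (19 : ℝ) * Real.log 2 ≤ 12 * Real.log 3 := by
    have h := Real.log_le_log (by norm_num : (0 : ℝ) < 2 ^ 19)
      (by norm_num : (2 : ℝ) ^ 19 ≤ 3 ^ 12)
    rw [Real.log_pow, Real.log_pow] at h
    exact_mod_cast h
  have h2 := Real.log_two_gt_d9
  linarith

theorem t (h0 : Stm0) : Stm2 := by
  classical
  intro M H
  obtain ⟨N₀, hN⟩ := h0 M
  refine ⟨M * Real.log 3 + Real.log 2, max N₀ 1, ?_⟩
  intro n hn Y k hY hk
  have hn0 : N₀ ≤ n := by exact_mod_cast (le_max_left _ _).trans hn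
  have hn1 : (1 : ℝ) ≤ n := (le_max_right _ _).trans hn
  have hY1 : (1 : ℝ) ≤ Y := hn1.trans hY
  have l3 : 0 < Real.log 3 := Real.log_pos (by norm_num)
  have l2 : 0 < Real.log 2 := Real.log_pos (by norm_num)
  have hv := hN n hn0
  -- all tube words of length `k` reach `Y`
  have hreach : ∀ w ∈ We k, Tube M w → Y ≤ val n w := by
    intro w hw ht
    have hl := len_We k w hw
    refine le_trans ?_ (hv w ht).1
    have h1 := ht w.length le_rfl
    rw [List.take_length, abs_le, hl] at h1
    have h2 : Real.log (sl w) = (w.count true : ℝ) * Real.log 3 - k * Real.log 2 := by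
      rw [sl, Real.log_div (by positivity) (by positivity), Real.log_pow, Real.log_pow, hl]
    have hsl : 0 < sl w := by
      unfold sl
      positivity
    have h3 : Real.log (2 * Y / n) ≤ Real.log (sl w) := by
      rw [h2, mul_div_assoc, Real.log_mul (by norm_num) (by positivity)]
      have h4 := num1
      have h5 : (749 / 1000 * (k : ℝ) - M) * Real.log 3 ≤ (w.count true : ℝ) * Real.log 3 := by
        apply mul_le_mul_of_nonneg_right _ l3.le
        linarith [h1.1]
      have h6 : 1 / 9 * (k : ℝ) ≤ (749 / 1000 * Real.log 3 - Real.log 2) * k :=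
        mul_le_mul_of_nonneg_right h4 (Nat.cast_nonneg k)
      linarith
    have h7 := (Real.log_le_log_iff (by positivity) hsl).1 h3
    rw [div_le_iff₀ (by linarith)] at h7
    linarith
  -- the stopping words
  have hsum : (1 : ℝ) / 2 ≤ ∑ w ∈ (Wd k).filter (fun w => Stp M Y n w), Q w := by
    refine (H k).trans ?_
    have e : ∑ w ∈ (We k).filter (fun w => Tube M w),
        (3 / 4 : ℝ) ^ (w.count true) * (1 / 4) ^ (k - w.count true) =
        ∑ w ∈ (We k).filter (fun w => Tube M w), Q w := by
      apply Finset.sum_congr rfl
      intro w hw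
      rw [Q_eq, len_We k w (Finset.mem_filter.1 hw).1]
    rw [e]
    refine (Finset.sum_le_sum_of_subset_of_nonneg (t := (We k).filter
      (fun w => PA (fun v => Tube M v ∧ Y ≤ val n v) w)) ?_
      (fun w _ _ => Q_nonneg w)).trans ?_
    · intro w hw
      rw [Finset.mem_filter] at hw ⊢
      refine ⟨hw.1, w.length, le_rfl, ?_⟩
      simp only [List.take_length]
      exact ⟨hw.2, hreach w hw.1 hw.2⟩
    · refine (ext k (fun v => Tube M v ∧ Y ≤ val n v)).trans ?_
      refine Finset.sum_le_sum_of_subset_of_nonneg ?_ (fun w _ _ => Q_nonneg w)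
      intro w hw
      rw [Finset.mem_filter] at hw ⊢
      obtain ⟨hw1, ⟨hw2, hw3⟩, hw4⟩ := hw
      refine ⟨hw1, hw2, hw3, ?_⟩
      intro j hj
      by_contra hc
      push Not at hc
      refine hw4 j hj ⟨?_, hc⟩
      intro i hi
      rw [List.length_take] at hi
      have hi' : i ≤ w.length := by omega
      have e : (w.take j).take i = w.take i := by
        rw [List.take_take]
        congr 1
        omega
      rw [e]
      exact hw2 i hi'
  have hterm : ∀ w ∈ (Wd k).filter (fun w => Stp M Y n w),
      Q w * n ≤ (1 / 2 : ℝ) ^ w.length * (4 * Y) := by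
    intro w hw
    obtain ⟨h1, h2, h3⟩ := (Finset.mem_filter.1 hw).2
    rw [← half_sl, mul_assoc]
    apply mul_le_mul_of_nonneg_left _ (by positivity)
    rcases List.eq_nil_or_concat w with h | ⟨v, d, h⟩
    · subst h
      simp only [sl, List.count_nil, List.length_nil, pow_zero]
      linarith
    · rw [List.concat_eq_append] at h
      have h4 := (hv w h1).1
      have h5 := h3 v.length (by rw [h]; simp)
      have h6 : w.take v.length = v := by rw [h]; simp
      rw [h6] at h5
      have h7 : (val n w : ℝ) ≤ (3 * val n v + 1) / 2 := by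
        rw [h, val_append]
        have h8 : stp d (val n v) ≤ (3 * val n v + 1) / 2 := by
          unfold stp
          split_ifs
          · exact le_rfl
          · omega
        have h9 : ((stp d (val n v) : ℕ) : ℝ) ≤ (((3 * val n v + 1) / 2 : ℕ) : ℝ) := by
          exact_mod_cast h8
        refine h9.trans (Nat.cast_div_le.trans ?_)
        push_cast
        exact le_rfl
      linarith
  have hfin : (∑ w ∈ (Wd k).filter (fun w => Stp M Y n w), Q w) * n ≤
      (∑ w ∈ (Wd k).filter (fun w => Stp M Y n w), (1 / 2 : ℝ) ^ w.length) * (4 * Y) := by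
    rw [Finset.sum_mul, Finset.sum_mul]
    exact Finset.sum_le_sum hterm
  rw [div_le_iff₀ (by linarith)]
  have h8 : (1 : ℝ) / 2 * n ≤
      (∑ w ∈ (Wd k).filter (fun w => Stp M Y n w), (1 / 2 : ℝ) ^ w.length) * (4 * Y) :=
    (mul_le_mul_of_nonneg_right hsum (by linarith)).trans hfin
  linarith

end Pool.Agent.N189.CX
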